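import Pool.Agent.H97.HV.Targets4
import Pool.Agent.H97.HV.Reg
import Pool.Agent.H34.WM.NA

/-!
# NAE. No embedding in the first case (MP_e37c09_lc)
-/

open Ordinal Cardinal Order Set
open scoped ZFSet

universe u

namespace HD.HW.H19

open HD.PRK HD.HV Pool.Agent.H54.WM

/-- a function with a cofinal range (from helper97, nrg) -/
theorem cof_fun (hYA : T_YA.{u}) {δ : Ordinal.{u}} (hδ : Extendible δ) (hA : CaseA δ)
    {ξ : Ordinal.{u}} (h3 : IsSuccLimit ξ) (h4 : ξ.cof.ord < δ) : ∃ f, HOD f ∧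
      ZFSet.IsFunc δ.toZFSet ξ.toZFSet f ∧ ∀ b < ξ, ∃ a < δ, ∃ c, b < c ∧
        ZFSet.pair a.toZFSet c.toZFSet ∈ f := by
  obtain ⟨y, hy1, hy2, hy3, hy4⟩ := hYA δ hδ hA ξ h3 h4
  obtain ⟨D, hD, hDr, hDs, hD0⟩ : ∃ D : Cardinal.{u}, δ = D.ord ∧
      D.IsRegular ∧ D.IsStrongLimit ∧ ℵ₀ < D := by
    obtain ⟨η, -, θ, j, h⟩ := HD.All.xa δ hδ 0
    exact HD.All.xb δ η θ j h
  subst hD
  obtain ⟨X, hX⟩ : ∃ X : Set Ordinal.{u}, X = {a | a.toZFSet ∈ y} := ⟨_, rfl⟩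
  have hXd : DS X := by
    rw [hX]
    exact hy1.ds
  obtain ⟨v1, v2, v3, -⟩ := HD.All.vh X
  have hnth : DO.{u} fun w => nth X (w 0) (w 1) :=
    HD.All.db (fun a _ => a ∈ X) hXd
  have hex : DO.{u} fun w => ∃ z, nth X (w 0) z := by
    refine DO.ex (R := fun z w => nth X (w 0) z) ?_
    refine (hnth.ren (fun n => if n = 0 then 1 else 0)).congr fun w => ?_
    simp
  have hRd : DR fun a z => nth X a z ∨ ((¬ ∃ z', nth X a z') ∧ z = 0) :=
    hnth.or (hex.not.and (DO.eqc 1 0))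
  have hpos : (0 : Ordinal.{u}) < ξ := h3.bot_lt
  have hXξ : ∀ z ∈ X, z < ξ := by
    intro z hz
    rw [hX] at hz
    exact toZFSet_mem_toZFSet_iff.1 (hy2 hz)
  have hun : ∀ a z z', nth X a z → nth X a z' → z = z' := by
    intro a z z' h5 h6
    rcases lt_trichotomy z z' with h | h | h
    · exact absurd ((v2 a a z z' h5 h6).2 h) (lt_irrefl _)
    · exact h
    · exact absurd ((v2 a a z' z h6 h5).2 h) (lt_irrefl _)
  refine ⟨rs D.ord ξ (fun a z => nth X a z ∨ ((¬ ∃ z', nth X a z') ∧ z = 0)),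
    hod_rs hRd _ _, ⟨fun p hp => ?_, fun x hx => ?_⟩, fun b hb => ?_⟩
  · obtain ⟨a, ha, b, hb, -, rfl⟩ := mem_rs.1 hp
    exact ZFSet.pair_mem_prod.2 ⟨toZFSet_mem_toZFSet_iff.2 ha, toZFSet_mem_toZFSet_iff.2 hb⟩
  · obtain ⟨a, ha, rfl⟩ := mem_toZFSet_iff.1 hx
    by_cases hz : ∃ z, nth X a z
    · obtain ⟨z, hz⟩ := hz
      refine ⟨z.toZFSet, pair_mem_rs.2 ⟨ha, hXξ z hz.1, Or.inl hz⟩, fun w hw => ?_⟩
      obtain ⟨a', -, b', -, hR', he⟩ := mem_rs.1 hw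
      obtain ⟨he1, rfl⟩ := ZFSet.pair_injective he
      have := toZFSet_injective he1
      subst this
      rcases hR' with hR' | ⟨hR', -⟩
      · rw [hun _ _ _ hR' hz]
      · exact absurd ⟨z, hz⟩ hR'
    · refine ⟨(0 : Ordinal.{u}).toZFSet, pair_mem_rs.2 ⟨ha, hpos, Or.inr ⟨hz, rfl⟩⟩,
        fun w hw => ?_⟩
      obtain ⟨a', -, b', -, hR', he⟩ := mem_rs.1 hw
      obtain ⟨he1, rfl⟩ := ZFSet.pair_injective he
      have := toZFSet_injective he1
      subst this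
      rcases hR' with hR' | ⟨-, rfl⟩
      · exact absurd ⟨b', hR'⟩ hz
      · rfl
  · obtain ⟨c, hc, hbc, hcy⟩ := hy4 (succ b) (h3.succ_lt hb)
    have hcX : c ∈ X := by
      rw [hX]
      exact hcy
    obtain ⟨a, -, hac⟩ := v1 c hcX
    have haD : a < D.ord := by
      by_contra hcon
      have hDa : D.ord ≤ a := not_lt.1 hcon
      have h5 : ∀ i < D.ord, ∃ z, nth X i z := by
        intro i hi
        obtain ⟨z, -, hz⟩ := v3 a c hac i (hi.trans_le hDa)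
        exact ⟨z, hz⟩
      choose! G hG using h5
      rw [← hX] at hy3
      have h6 := few_iff.1 hy3
      have h7 : Cardinal.lift.{u + 1} D ≤ #X := by
        have h8 : #(Iio D.ord) = Cardinal.lift.{u + 1} D := by
          rw [Cardinal.mk_Iio_ordinal, Cardinal.card_ord]
        rw [← h8]
        refine Cardinal.mk_le_of_injective (f := fun i : Iio D.ord =>
          (⟨G i.1, (hG i.1 i.2).1⟩ : X)) ?_
        intro i k hik
        have h9 : G i.1 = G k.1 := congrArg Subtype.val hik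
        have h10 := hG i.1 i.2
        have h11 := hG k.1 k.2
        rw [← h9] at h11
        apply Subtype.ext
        rcases lt_trichotomy i.1 k.1 with h | h | h
        · exact absurd ((v2 _ _ _ _ h10 h11).1 h) (lt_irrefl _)
        · exact h
        · exact absurd ((v2 _ _ _ _ h11 h10).1 h) (lt_irrefl _)
      exact absurd h7 (not_le.2 h6)
    exact ⟨a, haD, c, succ_le_iff.1 hbc, pair_mem_rs.2 ⟨haD, hc, Or.inl hac⟩⟩

theorem tr {γ ξ : Ordinal.{u}} {M : ZFSet.{u} → Prop} {j : ZFSet.{u} → ZFSet.{u}}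
    (h : NEmb γ ξ M j) {P : (ℕ → ZFSet.{u}) → Prop} (hP : D0 P) (v : ℕ → ZFSet.{u})
    (hv : ∀ n, NV (min γ ξ) (v n)) : P v ↔ P (j ∘ v) := by
  obtain ⟨φ, hφ⟩ := hP
  rw [hφ (NV (min γ ξ)) nv_tra v hv, h.elem φ v hv, ← hφ M h.tra (j ∘ v) fun n => h.map _ (hv n)]

theorem nv_sv {g : Ordinal.{u}} (hg : IsSuccLimit g) {l : List ZFSet.{u}}
    (hl : ∀ x ∈ l, NV g x) (n : ℕ) : NV g (sv l n) := by
  induction l generalizing n with
  | nil => simpa [sv] using nv_empty hg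
  | cons x l ih =>
    rcases n with _ | n
    · exact hl x (by simp)
    · exact ih (fun y hy => hl y (by simp [hy])) n

/-- every element of `v 0` is an element of the second coordinate of a pair in `v 1` with first
coordinate in `v 2` -/
def P3 (X f G : ZFSet.{u}) : Prop :=
  ∀ c ∈ X, ∃ p ∈ f, ∃ a b, p = ZFSet.pair a b ∧ (a ∈ G ∧ c ∈ b)

theorem d0_P3 : D0.{u} fun v => P3 (v 0) (v 1) (v 2) := by
  refine D0.allMem (R := fun c v => ∃ p ∈ v 1, ∃ a b, p = ZFSet.pair a b ∧ (a ∈ v 2 ∧ c ∈ b)) 0 ?_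
  refine D0.exMem (R := fun p v => ∃ a b, p = ZFSet.pair a b ∧ (a ∈ v 3 ∧ v 0 ∈ b)) 2 ?_
  refine D0.exPair (R := fun a b v => a ∈ v 4 ∧ v 1 ∈ b) 0 ?_
  exact (D0.mem 0 6).and (D0.mem 3 1)

theorem pf_NAE (hYA : T_YA.{u}) : HD.HW.T_NAE.{u} := by
  intro δ hδ hA κ γ hγ hE
  obtain ⟨ξ, h1, -, h3, h4, M, j, h⟩ := hE
  obtain ⟨f, hfH, hfun, hcof⟩ := cof_fun hYA hδ hA h3 h4
  have hg : IsSuccLimit (min γ ξ) := lmin hγ h3
  have hf : NV (min γ ξ) f := nv_hod hg hfH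
  have hG : NV (min γ ξ) δ.toZFSet := nv_ord hg δ
  have hX : NV (min γ ξ) ξ.toZFSet := nv_ord hg ξ
  have hjG : j δ.toZFSet = δ.toZFSet := h.fix δ h1
  have j_mem : ∀ {x y : ZFSet.{u}}, NV (min γ ξ) x → NV (min γ ξ) y → (x ∈ y ↔ j x ∈ j y) := by
    intro x y hx hy
    exact tr h (D0.mem 0 1) (sv [x, y]) (nv_sv hg (by
      intro z hz
      simp only [List.mem_cons, List.not_mem_nil, or_false] at hz
      rcases hz with rfl | rfl
      exacts [hx, hy]))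
  have j_pair : ∀ {x y : ZFSet.{u}}, NV (min γ ξ) x → NV (min γ ξ) y →
      j (ZFSet.pair x y) = ZFSet.pair (j x) (j y) := by
    intro x y hx hy
    exact (tr h (D0.pair 0 1 2) (sv [ZFSet.pair x y, x, y]) (nv_sv hg (by
      intro z hz
      simp only [List.mem_cons, List.not_mem_nil, or_false] at hz
      rcases hz with rfl | rfl | rfl
      exacts [nv_pair hg hx hy, hx, hy]))).1 rfl
  have h5 : P3 ξ.toZFSet f δ.toZFSet := by
    intro c hc
    rw [mem_toZFSet_iff] at hc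
    obtain ⟨b, hb, rfl⟩ := hc
    obtain ⟨a, ha, c', hc', hab⟩ := hcof b hb
    exact ⟨_, hab, _, _, rfl, mem_toZFSet_iff.2 ⟨a, ha, rfl⟩, toZFSet_mem_toZFSet_iff.2 hc'⟩
  have h2 : Pool.Agent.H34.WM.NA.P2 f := by
    rintro p hp q hq ⟨x, y, rfl, x', y', rfl, rfl⟩
    obtain ⟨hx, -⟩ := ZFSet.pair_mem_prod.1 (hfun.1 hp)
    obtain ⟨w, -, hw⟩ := hfun.2 x' hx
    rw [hw y hp, hw y' hq]
  have h5' : P3 (j ξ.toZFSet) (j f) (j δ.toZFSet) :=
    (tr h d0_P3 (sv [ξ.toZFSet, f, δ.toZFSet]) (nv_sv hg (by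
      intro z hz
      simp only [List.mem_cons, List.not_mem_nil, or_false] at hz
      rcases hz with rfl | rfl | rfl
      exacts [hX, hf, hG]))).1 h5
  have h2' : Pool.Agent.H34.WM.NA.P2 (j f) :=
    (tr h Pool.Agent.H34.WM.NA.d0_P2 (sv [f]) (nv_sv hg (by
      intro z hz
      simp only [List.mem_cons, List.not_mem_nil, or_false] at hz
      rcases hz with rfl
      exact hf))).1 h2
  apply h.crit
  ext c
  constructor
  · intro hc
    obtain ⟨p, hp, a, b, rfl, ha, hcb⟩ := h5' c hc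
    rw [hjG] at ha
    obtain ⟨w, hw, -⟩ := hfun.2 a ha
    have hw' := (ZFSet.pair_mem_prod.1 (hfun.1 hw)).2
    have ha' := mem_toZFSet_iff.1 ha
    obtain ⟨a0, ha0, rfl⟩ := ha'
    obtain ⟨w0, hw0, rfl⟩ := mem_toZFSet_iff.1 hw'
    have h6 : ZFSet.pair a0.toZFSet w0.toZFSet ∈ j f := by
      have h7 := (j_mem (nv_pair hg (nv_ord hg a0) (nv_ord hg w0)) hf).1 hw
      rw [j_pair (nv_ord hg a0) (nv_ord hg w0), h.fix a0 (ha0.trans h1),
        h.fix w0 hw0] at h7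
      exact h7
    have h8 := h2' _ hp _ h6 ⟨_, _, rfl, _, _, rfl, rfl⟩
    rw [(ZFSet.pair_inj.1 h8).2] at hcb
    obtain ⟨c0, hc0, rfl⟩ := mem_toZFSet_iff.1 hcb
    exact toZFSet_mem_toZFSet_iff.2 (hc0.trans hw0)
  · intro hc
    obtain ⟨b, hb, rfl⟩ := mem_toZFSet_iff.1 hc
    have h6 := (j_mem (nv_ord hg b) hX).1 hc
    rwa [h.fix b hb] at h6

end HD.HW.H19
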